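import Pool.Agent.K9h24.SzK

/-!
# Order-preserving bi-Lipschitz bijections between `C(K)` spaces preserve the Szlenk index
-/

set_option autoImplicit false

open Pool.Agent.K9h24.Sz NNReal

namespace Pool.Agent.Results.MP_d12f8b_an.SzlenkPreserved

/-- **Order-preserving bi-Lipschitz bijections preserve the Szlenk index.** Let `K` and `L` be
countable compact Hausdorff spaces and `F` a bijection of `C(K)` onto `C(L)` such that `f ≤ g`
implies `F f ≤ F g` and such that `F` and its inverse are Lipschitz. Then `C(K)` and `C(L)` have the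
same Szlenk index. Moreover these indices are well defined: for every `ε > 0` the iterated Szlenk
derivations of the unit balls of both duals do become empty. -/
theorem result (K L : Type)
    [TopologicalSpace K] [CompactSpace K] [T2Space K] [Countable K]
    [TopologicalSpace L] [CompactSpace L] [T2Space L] [Countable L]
    (F : C(K, ℝ) ≃ C(L, ℝ)) (hmono : ∀ f g : C(K, ℝ), f ≤ g → F f ≤ F g)
    (hF : ∃ A : ℝ≥0, LipschitzWith A F) (hF' : ∃ B : ℝ≥0, LipschitzWith B F.symm) :
    (∀ ε : ℝ, 0 < ε →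
      (∃ α : Ordinal.{0}, szDeriv C(K, ℝ) ε α = ∅) ∧
      (∃ α : Ordinal.{0}, szDeriv C(L, ℝ) ε α = ∅)) ∧
    szIndex C(K, ℝ) = szIndex C(L, ℝ) := by
  obtain ⟨A, hA⟩ := hF
  obtain ⟨B, hB⟩ := hF'
  refine ⟨fun ε hε => ⟨exists_szDeriv_empty K hε, exists_szDeriv_empty L hε⟩, ?_⟩
  rcases main (emb_of_lipschitz F hmono hA hB) F.surjective with ⟨_, _, h1, h2⟩ |
    ⟨β, _, _, _, _, h1, h2⟩
  · rw [h1, h2]
  · rw [h1, h2]

end Pool.Agent.Results.MP_d12f8b_an.SzlenkPreserved
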